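import Mathlib
import Pool.Agent.Helper17.LinRec.Final

set_option autoImplicit false

namespace Pool.Agent.Results.MP_9d7cd1_nt.LinearRecurrences

open Filter

/-- Hall's inequality in linear recurrence families.  Let `x` and `y` be integer sequences
satisfying linear recurrences with integer coefficients.  For every `δ > 0` there is `c > 0` such
that the set of `n` with `0 < |x n ^ 3 - y n ^ 2| ≤ c * √|x n|` has upper density at most `δ`. -/
theorem result (x y : ℕ → ℤ) (E E' : LinearRecurrence ℤ) (hx : E.IsSolution x)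
    (hy : E'.IsSolution y) :
    ∀ δ : ℝ, 0 < δ → ∃ c : ℝ, 0 < c ∧ ∀ᶠ N : ℕ in atTop,
      (Set.ncard {n : ℕ | n < N ∧ x n ^ 3 ≠ y n ^ 2 ∧
        |(x n : ℝ) ^ 3 - (y n : ℝ) ^ 2| ≤ c * Real.sqrt |(x n : ℝ)|} : ℝ) ≤ δ * N := by
  classical
  obtain ⟨-, h2, -⟩ := Helper17.LinRec.parts x y E E' hx hy
  have hcast : ∀ n, ((x n ^ 3 - y n ^ 2 : ℤ) : ℝ) = (x n : ℝ) ^ 3 - (y n : ℝ) ^ 2 := by
    intro n
    push_cast
    ring
  simp only [hcast] at h2
  intro δ hδ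
  obtain ⟨c, hc, hs⟩ := h2 δ hδ
  refine ⟨c, hc, ?_⟩
  filter_upwards [hs] with N hN
  have hfin : {n : ℕ | n < N ∧ x n ^ 3 ≠ y n ^ 2 ∧
      |(x n : ℝ) ^ 3 - (y n : ℝ) ^ 2| ≤ c * Real.sqrt |(x n : ℝ)|}.Finite :=
    (Set.finite_lt_nat N).subset (fun n hn => hn.1)
  rw [Set.ncard_eq_toFinset_card _ hfin]
  apply hN
  intro n hn
  rw [Set.Finite.mem_toFinset] at hn
  exact ⟨hn.1, hn.2⟩

end Pool.Agent.Results.MP_9d7cd1_nt.LinearRecurrences
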